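import Pool.Agent.T2H38.LSS.Main1
import Pool.Agent.T2H38.LSS.Main2

/-!
# The primality threshold of the Lovász–Saks–Schrijver ideal of the complete graph

For `n ≥ 1` let `s` be the integer with `s (s + 1) / 2 < n ≤ (s + 1) (s + 2) / 2`. Then the ideal
`L_{K_n}(d)` over any field is prime if and only if `d ≥ 2 n - c_n`, where `c_n = 2 s` if
`n = s (s + 1) / 2 + 1` and `s ≥ 1`, and `c_n = 2 s + 1` otherwise.
-/

set_option autoImplicit false

namespace Pool.Agent.Results.MP_0e620a_ag.ExactThreshold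

open MvPolynomial

/-- the polynomial `f_{ij} = ∑ l, y_{i l} y_{j l}` -/
noncomputable def edgeForm (k : Type) [Field k] (n d : ℕ) (i j : Fin n) :
    MvPolynomial (Fin n × Fin d) k :=
  ∑ l : Fin d, X (i, l) * X (j, l)

/-- the ideal `L_G(d)` generated by the `f_{ij}` with `{i, j}` an edge of `G` -/
noncomputable def lss (k : Type) [Field k] {n : ℕ} (G : SimpleGraph (Fin n)) (d : ℕ) :
    Ideal (MvPolynomial (Fin n × Fin d) k) :=
  Ideal.span {f | ∃ i j : Fin n, G.Adj i j ∧ f = edgeForm k n d i j}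

/-- the integer `s` with `s (s + 1) / 2 < n ≤ (s + 1) (s + 2) / 2` -/
def sIndex (n : ℕ) : ℕ := (Nat.sqrt (8 * n - 7) - 1) / 2

/-- the number `c_n` -/
def cNum (n : ℕ) : ℕ :=
  if 1 ≤ sIndex n ∧ n = sIndex n * (sIndex n + 1) / 2 + 1 then 2 * sIndex n
  else 2 * sIndex n + 1

theorem lss_top (k : Type) [Field k] (n d : ℕ) :
    lss k (⊤ : SimpleGraph (Fin n)) d = Pool.Agent.T2H38.LSS.II k n d := rfl

theorem sIndex_spec {n : ℕ} (hn : 1 ≤ n) :
    sIndex n * (sIndex n + 1) / 2 < n ∧ n ≤ (sIndex n + 1) * (sIndex n + 2) / 2 := by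
  have h1 := Nat.sqrt_le' (8 * n - 7)
  have h2 := Nat.lt_succ_sqrt' (8 * n - 7)
  have hdef : sIndex n = (Nat.sqrt (8 * n - 7) - 1) / 2 := rfl
  have hq1 : 1 ≤ Nat.sqrt (8 * n - 7) := by
    rw [Nat.le_sqrt']
    omega
  generalize Nat.sqrt (8 * n - 7) = q at h1 h2 hdef hq1
  generalize sIndex n = s at hdef
  have h3 : 2 * s + 1 ≤ q := by omega
  have h4 : q ≤ 2 * s + 2 := by omega
  have h5 : (2 * s + 1) ^ 2 ≤ 8 * n - 7 := (Nat.pow_le_pow_left h3 2).trans h1
  have h6 : 8 * n - 7 < (2 * s + 3) ^ 2 := by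
    refine lt_of_lt_of_le h2 (Nat.pow_le_pow_left ?_ 2)
    omega
  have h7 : 2 * (s * (s + 1) / 2) = s * (s + 1) :=
    Nat.mul_div_cancel' (Nat.even_mul_succ_self s).two_dvd
  have h8 : 2 * ((s + 1) * (s + 2) / 2) = (s + 1) * (s + 2) :=
    Nat.mul_div_cancel' (Nat.even_mul_succ_self (s + 1)).two_dvd
  have h9 : (2 * s + 1) ^ 2 = 4 * (s * (s + 1)) + 1 := by ring
  have h10 : (2 * s + 3) ^ 2 = 4 * ((s + 1) * (s + 2)) + 1 := by ring
  constructor <;> omega

theorem good_iff {n d : ℕ} (hn : 1 ≤ n) :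
    (Pool.Agent.T2H38.LSS.Good n d ∧ n ≤ d) ↔ 2 * n - cNum n ≤ d := by
  obtain ⟨h1, h2⟩ := sIndex_spec hn
  have hc : cNum n = if 1 ≤ sIndex n ∧ n = sIndex n * (sIndex n + 1) / 2 + 1 then 2 * sIndex n
    else 2 * sIndex n + 1 := rfl
  generalize sIndex n = s at h1 h2 hc
  have h3 : 2 * (s * (s + 1) / 2) = s * (s + 1) :=
    Nat.mul_div_cancel' (Nat.even_mul_succ_self s).two_dvd
  have h4 : 2 * ((s + 1) * (s + 2) / 2) = (s + 1) * (s + 2) :=
    Nat.mul_div_cancel' (Nat.even_mul_succ_self (s + 1)).two_dvd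
  have hc0 : 2 * s ≤ cNum n := by rw [hc]; split_ifs <;> omega
  have hc1 : cNum n ≤ 2 * s + 1 := by rw [hc]; split_ifs <;> omega
  have hcpos : 1 ≤ cNum n := by
    rw [hc]
    split_ifs with h
    · omega
    · omega
  have hodd : s * (s + 1) + 4 ≤ 2 * n → cNum n = 2 * s + 1 := by
    intro h
    rw [hc, if_neg]
    rintro ⟨_, h6⟩
    omega
  have hodd' : 1 ≤ s → cNum n = 2 * s + 1 → s * (s + 1) + 4 ≤ 2 * n := by
    intro h5 h6
    by_contra h7
    rw [hc, if_pos ⟨h5, by omega⟩] at h6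
    omega
  have hcn : cNum n ≤ n := by
    rcases Nat.eq_zero_or_pos s with rfl | hs
    · omega
    · obtain ⟨x, rfl⟩ : ∃ x, s = x + 1 := ⟨s - 1, by omega⟩
      have h5 : (x + 1) * (x + 1 + 1) = x * x + 3 * x + 2 := by ring
      have h6 : x ≤ x * x := Nat.le_mul_self x
      rcases Nat.lt_or_ge (cNum n) (2 * (x + 1) + 1) with h7 | h7
      · omega
      · have h8 := hodd' hs (by omega)
        omega
  constructor
  · rintro ⟨hg | ⟨τ, ρ, hρ, hg1, hg2⟩, hnd⟩
    · omega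
    · have hτ : τ ≤ s := by
        by_contra h5
        have h6 : (s + 1) * (s + 2) ≤ τ * (τ + 1) :=
          Nat.mul_le_mul (by omega) (by omega)
        omega
      rcases Nat.lt_or_ge τ s with h5 | h5
      · omega
      · have h6 : τ = s := by omega
        subst h6
        have hρ' : ρ = 0 ∨ ρ = 1 := by omega
        rcases hρ' with rfl | rfl
        · omega
        · have := hodd (by omega)
          omega
  · intro hd
    refine ⟨?_, by omega⟩
    rcases Nat.lt_or_ge (2 * n) (d + 2) with h5 | h5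
    · left; omega
    · right
      refine ⟨(2 * n - d) / 2, (2 * n - d) % 2, by omega, by omega, ?_⟩
      generalize hτ : (2 * n - d) / 2 = τ
      generalize hρ : (2 * n - d) % 2 = ρ
      have hρ1 : ρ ≤ 1 := by omega
      have hτρ : 2 * n = d + (2 * τ + ρ) := by omega
      have hτ1 : 1 ≤ τ := by omega
      have hτs : τ ≤ s := by omega
      rcases Nat.lt_or_ge τ s with h6 | h6
      · obtain ⟨x, hx⟩ : ∃ x, s = x + 1 := ⟨s - 1, by omega⟩
        subst hx
        have h7 : τ * (τ + 1) ≤ x * (x + 1) := Nat.mul_le_mul (by omega) (by omega)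
        have h8 : (x + 1) * (x + 1 + 1) = x * (x + 1) + 2 * x + 2 := by ring
        omega
      · have h7 : τ = s := by omega
        subst h7
        have hρ' : ρ = 0 ∨ ρ = 1 := by omega
        rcases hρ' with rfl | rfl
        · omega
        · have := hodd' hτ1 (by omega)
          omega

/-- **The primality threshold of `L_{K_n}(d)`.** Over every field and for every `n ≥ 1` the least
`d ≥ 1` such that `L_{K_n}(d')` is prime for all `d' ≥ d` is `2 n - c_n`; in fact, for `d ≥ 1`,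
`L_{K_n}(d)` is prime if and only if `d ≥ 2 n - c_n`. -/
theorem result (k : Type) [Field k] (n : ℕ) (hn : 1 ≤ n) :
    IsLeast {d : ℕ | 1 ≤ d ∧ ∀ d' : ℕ, d ≤ d' → (lss k (⊤ : SimpleGraph (Fin n)) d').IsPrime}
      (2 * n - cNum n) ∧
    (∀ d : ℕ, 1 ≤ d → ((lss k (⊤ : SimpleGraph (Fin n)) d).IsPrime ↔ 2 * n - cNum n ≤ d)) ∧
    cNum n < 2 * n ∧
    sIndex n * (sIndex n + 1) / 2 < n ∧ n ≤ (sIndex n + 1) * (sIndex n + 2) / 2 := by
  have hiff : ∀ d : ℕ, 1 ≤ d →
      ((lss k (⊤ : SimpleGraph (Fin n)) d).IsPrime ↔ 2 * n - cNum n ≤ d) := by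
    intro d hd
    rw [lss_top, ← good_iff hn]
    constructor
    · intro h
      refine ⟨?_, (Pool.Agent.T2H38.LSS.trdeg_of_prime k hd h).1⟩
      by_contra hg
      exact Pool.Agent.T2H38.LSS.not_prime_of_not_good k hd hg h
    · rintro ⟨hg, hnd⟩
      exact Pool.Agent.T2H38.LSS.prime_of_good k hg hnd
  have hge : n ≤ 2 * n - cNum n := ((good_iff hn).2 le_rfl).2
  refine ⟨⟨⟨by omega, fun d' hd' => (hiff d' (by omega)).2 hd'⟩, ?_⟩, hiff, by omega,
    sIndex_spec hn⟩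
  rintro d ⟨hd1, hd2⟩
  exact (hiff d hd1).1 (hd2 d le_rfl)

end Pool.Agent.Results.MP_0e620a_ag.ExactThreshold
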